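import Pool.Agent.Helper7.SC.DigitClause

/-! Functions which are determined by few digits on average. -/

set_option autoImplicit false

namespace Pool.Agent.Helper45.SE

open Finset
open Pool.Agent.Helper57.U2 (digit)
open Pool.Agent.Helper7.SC (inc inc_nocarry inc_carry split_digit digitSensitivity)

/-- For `i < K` and `n < b ^ K` the value `J i n` is determined by the digits of `n` at the
positions in a set `C i n`, which has at most `v` elements on average. -/
def Certified (b K : ℕ) (v : ℝ) (J : ℕ → ℕ → ℕ) : Prop :=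
  ∃ C : ℕ → ℕ → Finset ℕ,
    (∀ i < K, ∀ n < b ^ K, ∀ m < b ^ K,
      (∀ q ∈ C i n, digit b q m = digit b q n) → J i m = J i n) ∧
    (∑ i ∈ range K, ∑ n ∈ range (b ^ K), #(C i n) : ℝ) ≤ v * (K * (b : ℝ) ^ K)

lemma inc_mod {b : ℕ} (hb : 2 ≤ b) (j n : ℕ) : inc b j n % b ^ j = n % b ^ j := by
  by_cases h : n / b ^ j % b = b - 1
  · rw [(inc_carry hb h).2, pow_succ, mul_assoc, Nat.add_mul_mod_self_left, Nat.mod_mod]
  · rw [inc_nocarry h, Nat.add_mod_right]

lemma inc_div {b : ℕ} (hb : 2 ≤ b) (j n : ℕ) :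
    inc b j n / b ^ (j + 1) = n / b ^ (j + 1) := by
  have hpos : 0 < b ^ j := by positivity
  have hpos' : 0 < b ^ (j + 1) := by positivity
  have hlo : n % b ^ j < b ^ j := Nat.mod_lt _ hpos
  by_cases h : n / b ^ j % b = b - 1
  · rw [(inc_carry hb h).2, Nat.add_mul_div_left _ _ hpos', Nat.div_eq_of_lt, Nat.zero_add]
    exact hlo.trans_le (Nat.pow_le_pow_right (by omega) (Nat.le_succ j))
  · rw [inc_nocarry h]
    have h1 := split_digit b j n
    have hd : n / b ^ j % b < b := Nat.mod_lt _ (by omega)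
    have h2 : n % b ^ j + b ^ j * (n / b ^ j % b) + b ^ j < b ^ (j + 1) := by
      have h3 : n / b ^ j % b + 1 + 1 ≤ b := by omega
      have h4 : b ^ j * (n / b ^ j % b + 1 + 1) ≤ b ^ j * b := Nat.mul_le_mul_left _ h3
      rw [pow_succ]
      nlinarith
    have h5 : n + b ^ j = (n % b ^ j + b ^ j * (n / b ^ j % b) + b ^ j) +
        b ^ (j + 1) * (n / b ^ (j + 1)) := by
      omega
    rw [h5, Nat.add_mul_div_left _ _ hpos', Nat.div_eq_of_lt h2, Nat.zero_add]

lemma digit_inc {b : ℕ} (hb : 2 ≤ b) {j q : ℕ} (n : ℕ) (h : q ≠ j) :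
    digit b q (inc b j n) = digit b q n := by
  unfold digit
  rcases lt_or_gt_of_ne h with h | h
  · have key : ∀ m : ℕ, m / b ^ q % b = m % b ^ j / b ^ q % b := by
      intro m
      obtain ⟨t, rfl⟩ : ∃ t, j = q + 1 + t := ⟨j - (q + 1), by omega⟩
      have h1 : m % b ^ (q + 1 + t) / b ^ q = m / b ^ q % b ^ (1 + t) := by
        rw [show b ^ (q + 1 + t) = b ^ q * b ^ (1 + t) by rw [← pow_add]; congr 1; omega,
          Nat.mod_mul_right_div_self]
      rw [h1, pow_add, pow_one, Nat.mod_mul_right_mod]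
    rw [key, inc_mod hb, ← key]
  · obtain ⟨t, rfl⟩ : ∃ t, q = j + 1 + t := ⟨q - (j + 1), by omega⟩
    rw [pow_add, ← Nat.div_div_eq_div_mul, ← Nat.div_div_eq_div_mul, inc_div hb]

lemma inc_lt {b K j n : ℕ} (hb : 2 ≤ b) (hj : j < K) (hn : n < b ^ K) : inc b j n < b ^ K := by
  obtain ⟨t, rfl⟩ : ∃ t, K = j + 1 + t := ⟨K - (j + 1), by omega⟩
  have h1 := inc_div hb j n
  rw [pow_add] at hn ⊢
  rw [mul_comm, ← Nat.div_lt_iff_lt_mul (by positivity)] at hn ⊢
  rw [h1]
  exact hn

/-- The digit sensitivity is at most the average number of digits which determine the value. -/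
theorem cert_le {b K : ℕ} {v : ℝ} (hb : 2 ≤ b) {J : ℕ → ℕ → ℕ} (hv : 0 ≤ v)
    (hJ : Certified b K v J) : digitSensitivity b K J ≤ v := by
  classical
  obtain ⟨C, hC, hsum⟩ := hJ
  unfold digitSensitivity
  refine div_le_of_le_mul₀ (by positivity) hv (le_trans ?_ hsum)
  refine sum_le_sum fun i hi => ?_
  have h1 : ∀ j ∈ range K, (#{n ∈ range (b ^ K) | J i n ≠ J i (inc b j n)} : ℝ) ≤
      ∑ n ∈ range (b ^ K), if j ∈ C i n then (1 : ℝ) else 0 := by
    intro j hj
    rw [← Finset.sum_boole]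
    refine sum_le_sum fun n hn => ?_
    split_ifs with h h' h'
    · exact le_rfl
    · refine absurd ?_ h
      refine (hC i (mem_range.1 hi) n (mem_range.1 hn) (inc b j n)
        (inc_lt hb (mem_range.1 hj) (mem_range.1 hn)) fun q hq => ?_).symm
      exact digit_inc hb n fun e => h' (e ▸ hq)
    · exact zero_le_one
    · exact le_rfl
  refine (sum_le_sum h1).trans ?_
  rw [Finset.sum_comm]
  refine sum_le_sum fun n _ => ?_
  rw [Finset.sum_boole]
  refine Nat.cast_le.2 (Finset.card_le_card fun j hj => ?_)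
  exact (mem_filter.1 hj).2

end Pool.Agent.Helper45.SE
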