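import Pool.Agent.Helper72.AC.AddSens

/-! The sensitivity of functions with small formulas (Khrapchenko) and of unate functions. -/

set_option autoImplicit false

namespace Pool.Agent.Helper45.SE

open Finset
open Pool.Agent.Helper72

/-- Functions computed by a formula with `L` leaves over `∧`, `∨`, `¬` (negations at the
leaves). -/
inductive Formula {n : ℕ} : ℕ → ((Fin n → Bool) → Bool) → Prop
  | const (b : Bool) : Formula 0 fun _ => b
  | leaf (i : Fin n) (b : Bool) : Formula 1 fun x => xor (x i) b
  | and {L M : ℕ} {g h : (Fin n → Bool) → Bool} :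
      Formula L g → Formula M h → Formula (L + M) fun x => g x && h x
  | or {L M : ℕ} {g h : (Fin n → Bool) → Bool} :
      Formula L g → Formula M h → Formula (L + M) fun x => g x || h x

/-- the edges between two sets -/
def edges {n : ℕ} (A B : Finset (Fin n → Bool)) : Finset ((Fin n → Bool) × Fin n) :=
  (A ×ˢ univ).filter fun p => AC.flip p.1 p.2 ∈ B

lemma arith {a c L M a₁ a₂ b : ℝ} (hL : 0 ≤ L) (hM : 0 ≤ M)
    (h1 : 0 ≤ a₁) (h2 : 0 ≤ a₂) (hb : 0 ≤ b) (h3 : a ^ 2 ≤ L * a₁ * b)
    (h4 : c ^ 2 ≤ M * a₂ * b) : (a + c) ^ 2 ≤ (L + M) * (a₁ + a₂) * b := by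
  have h5 : 2 * (a * c) ≤ L * a₂ * b + M * a₁ * b := by
    refine abs_le_of_sq_le_sq' ?_ (by positivity) |>.2
    have h6 : a ^ 2 * c ^ 2 ≤ (L * a₁ * b) * (M * a₂ * b) :=
      mul_le_mul h3 h4 (by positivity) (by positivity)
    nlinarith [sq_nonneg (L * a₂ * b - M * a₁ * b)]
  nlinarith

lemma edges_union_left {n : ℕ} {A A₁ A₂ B : Finset (Fin n → Bool)} (h : A ⊆ A₁ ∪ A₂) :
    (edges A B).card ≤ (edges A₁ B).card + (edges A₂ B).card := by
  classical
  refine (Finset.card_le_card fun p hp => ?_).trans (Finset.card_union_le _ _)
  rw [edges, Finset.mem_filter, Finset.mem_product] at hp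
  rw [Finset.mem_union, edges, edges, Finset.mem_filter, Finset.mem_filter, Finset.mem_product,
    Finset.mem_product]
  rcases Finset.mem_union.1 (h hp.1.1) with h1 | h1
  · exact Or.inl ⟨⟨h1, hp.1.2⟩, hp.2⟩
  · exact Or.inr ⟨⟨h1, hp.1.2⟩, hp.2⟩

lemma edges_union_right {n : ℕ} {A B B₁ B₂ : Finset (Fin n → Bool)} (h : B ⊆ B₁ ∪ B₂) :
    (edges A B).card ≤ (edges A B₁).card + (edges A B₂).card := by
  classical
  refine (Finset.card_le_card fun p hp => ?_).trans (Finset.card_union_le _ _)
  rw [edges, Finset.mem_filter, Finset.mem_product] at hp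
  rw [Finset.mem_union, edges, edges, Finset.mem_filter, Finset.mem_filter, Finset.mem_product]
  rcases Finset.mem_union.1 (h hp.2) with h1 | h1
  · exact Or.inl ⟨hp.1, h1⟩
  · exact Or.inr ⟨hp.1, h1⟩

/-- Khrapchenko's bound -/
lemma khrapchenko {n : ℕ} {L : ℕ} {g : (Fin n → Bool) → Bool} (hg : Formula L g) :
    ∀ A B : Finset (Fin n → Bool), (∀ x ∈ A, g x = true) → (∀ x ∈ B, g x = false) →
      ((edges A B).card : ℝ) ^ 2 ≤ L * A.card * B.card := by
  classical
  induction hg with
  | const b =>
    intro A B hA hB
    have : edges A B = ∅ := by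
      unfold edges
      refine Finset.filter_eq_empty_iff.2 fun p hp hpB => ?_
      have h1 := hA _ (Finset.mem_product.1 hp).1
      have h2 := hB _ hpB
      simp_all
    rw [this]
    simp
  | leaf i b =>
    intro A B hA hB
    have hj : ∀ p ∈ edges A B, p.2 = i := by
      intro p hp
      rw [edges, Finset.mem_filter, Finset.mem_product] at hp
      by_contra hne
      have h1 := hA _ hp.1.1
      have h2 := hB _ hp.2
      simp only at h1 h2
      rw [AC.flip, Function.update_of_ne (Ne.symm hne), h1] at h2
      exact absurd h2 (by decide)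
    have hcA : (edges A B).card ≤ A.card := by
      refine Finset.card_le_card_of_injOn (fun p => p.1) (fun p hp => ?_) ?_
      · have := Finset.mem_coe.1 hp
        rw [edges, Finset.mem_filter, Finset.mem_product] at this
        exact this.1.1
      · intro p hp q hq h
        have e1 := hj p hp
        have e2 := hj q hq
        exact Prod.ext h (e1.trans e2.symm)
    have hcB : (edges A B).card ≤ B.card := by
      refine Finset.card_le_card_of_injOn (fun p => AC.flip p.1 p.2) (fun p hp => ?_) ?_
      · have := Finset.mem_coe.1 hp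
        rw [edges, Finset.mem_filter] at this
        exact this.2
      · intro p hp q hq h
        have e1 := hj p hp
        have e2 := hj q hq
        simp only at h
        rw [e1, e2] at h
        have h3 := congrArg (fun w => AC.flip w i) h
        simp only [AC.flip_flip] at h3
        exact Prod.ext h3 (e1.trans e2.symm)
    have h1 : ((edges A B).card : ℝ) ≤ A.card := by exact_mod_cast hcA
    have h2 : ((edges A B).card : ℝ) ≤ B.card := by exact_mod_cast hcB
    rw [Nat.cast_one, one_mul, sq]
    exact mul_le_mul h1 h2 (by positivity) (by positivity)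
  | @and L M g h _ _ ihg ihh =>
    intro A B hA hB
    have hA1 : ∀ x ∈ A, g x = true := fun x hx => by
      have := hA x hx
      simp only [Bool.and_eq_true] at this
      exact this.1
    have hA2 : ∀ x ∈ A, h x = true := fun x hx => by
      have := hA x hx
      simp only [Bool.and_eq_true] at this
      exact this.2
    have h1 := ihg A (B.filter fun x => g x = false) hA1 fun x hx => (Finset.mem_filter.1 hx).2
    have h2 := ihh A (B.filter fun x => ¬ g x = false) hA2 fun x hx => by
      obtain ⟨hxB, hxg⟩ := Finset.mem_filter.1 hx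
      have := hB x hxB
      simp only [Bool.and_eq_false_iff] at this
      exact this.resolve_left hxg
    have h3 : (edges A B).card ≤ (edges A (B.filter fun x => g x = false)).card +
        (edges A (B.filter fun x => ¬ g x = false)).card := by
      refine edges_union_right ?_
      rw [Finset.filter_union_filter_not_eq]
    have h4 : ((edges A B).card : ℝ) ≤ (edges A (B.filter fun x => g x = false)).card +
        (edges A (B.filter fun x => ¬ g x = false)).card := by exact_mod_cast h3
    have h5 : (B.card : ℝ) = (B.filter fun x => g x = false).card +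
        (B.filter fun x => ¬ g x = false).card := by
      rw [← Nat.cast_add, Finset.card_filter_add_card_filter_not]
    have h6 := arith (Nat.cast_nonneg L)
      (Nat.cast_nonneg M) (Nat.cast_nonneg (B.filter fun x => g x = false).card)
      (Nat.cast_nonneg (B.filter fun x => ¬ g x = false).card) (Nat.cast_nonneg A.card)
      (h1.trans (le_of_eq (by ring))) (h2.trans (le_of_eq (by ring)))
    rw [← h5] at h6
    calc ((edges A B).card : ℝ) ^ 2 ≤ _ := pow_le_pow_left₀ (by positivity) h4 2
      _ ≤ _ := h6
      _ = _ := by push_cast; ring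
  | @or L M g h _ _ ihg ihh =>
    intro A B hA hB
    have hB1 : ∀ x ∈ B, g x = false := fun x hx => by
      have := hB x hx
      simp only [Bool.or_eq_false_iff] at this
      exact this.1
    have hB2 : ∀ x ∈ B, h x = false := fun x hx => by
      have := hB x hx
      simp only [Bool.or_eq_false_iff] at this
      exact this.2
    have h1 := ihg (A.filter fun x => g x = true) B (fun x hx => (Finset.mem_filter.1 hx).2) hB1
    have h2 := ihh (A.filter fun x => ¬ g x = true) B (fun x hx => by
      obtain ⟨hxB, hxg⟩ := Finset.mem_filter.1 hx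
      have := hA x hxB
      simp only [Bool.or_eq_true] at this
      exact this.resolve_left hxg) hB2
    have h3 : (edges A B).card ≤ (edges (A.filter fun x => g x = true) B).card +
        (edges (A.filter fun x => ¬ g x = true) B).card := by
      refine edges_union_left ?_
      rw [Finset.filter_union_filter_not_eq]
    have h4 : ((edges A B).card : ℝ) ≤ (edges (A.filter fun x => g x = true) B).card +
        (edges (A.filter fun x => ¬ g x = true) B).card := by exact_mod_cast h3
    have h5 : (A.card : ℝ) = (A.filter fun x => g x = true).card +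
        (A.filter fun x => ¬ g x = true).card := by
      rw [← Nat.cast_add, Finset.card_filter_add_card_filter_not]
    have h6 := arith (Nat.cast_nonneg L)
      (Nat.cast_nonneg M) (Nat.cast_nonneg (A.filter fun x => g x = true).card)
      (Nat.cast_nonneg (A.filter fun x => ¬ g x = true).card) (Nat.cast_nonneg B.card) h1 h2
    rw [← h5] at h6
    calc ((edges A B).card : ℝ) ^ 2 ≤ _ := pow_le_pow_left₀ (by positivity) h4 2
      _ ≤ _ := h6
      _ = _ := by push_cast; ring

/-- total sensitivity -/
def tot {n : ℕ} (g : (Fin n → Bool) → Bool) : ℕ :=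
  ∑ j : Fin n, (univ.filter fun x : Fin n → Bool => g x ≠ g (AC.flip x j)).card

lemma tot_edges {n : ℕ} (g : (Fin n → Bool) → Bool) :
    tot g = 2 * (edges (univ.filter fun x => g x = true) (univ.filter fun x => g x = false)).card := by
  classical
  have h1 : (edges (univ.filter fun x => g x = true) (univ.filter fun x => g x = false)).card =
      ∑ j : Fin n, (univ.filter fun x : Fin n → Bool => g x = true ∧ g (AC.flip x j) = false).card := by
    rw [edges, Finset.card_filter, Finset.sum_product_right]
    refine Finset.sum_congr rfl fun j _ => ?_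
    rw [← Finset.card_filter, Finset.filter_filter]
    simp
  rw [h1, tot, Finset.mul_sum]
  refine Finset.sum_congr rfl fun j _ => ?_
  have h2 : (univ.filter fun x : Fin n → Bool => g x ≠ g (AC.flip x j)) =
      (univ.filter fun x : Fin n → Bool => g x = true ∧ g (AC.flip x j) = false) ∪
      (univ.filter fun x : Fin n → Bool => g x = false ∧ g (AC.flip x j) = true) := by
    ext x
    simp only [Finset.mem_filter, Finset.mem_univ, true_and, Finset.mem_union]
    cases g x <;> cases g (AC.flip x j) <;> simp
  have h3 : (univ.filter fun x : Fin n → Bool => g x = false ∧ g (AC.flip x j) = true).card =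
      (univ.filter fun x : Fin n → Bool => g x = true ∧ g (AC.flip x j) = false).card := by
    refine Finset.card_bij (fun x _ => AC.flip x j) ?_ ?_ ?_
    · intro x hx
      rw [Finset.mem_filter] at hx ⊢
      exact ⟨Finset.mem_univ _, hx.2.2, by rw [AC.flip_flip]; exact hx.2.1⟩
    · intro x _ y _ h
      have := congrArg (fun w => AC.flip w j) h
      simpa [AC.flip_flip] using this
    · intro y hy
      rw [Finset.mem_filter] at hy
      refine ⟨AC.flip y j, Finset.mem_filter.2 ⟨Finset.mem_univ _, hy.2.2, ?_⟩, AC.flip_flip y j⟩
      rw [AC.flip_flip]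
      exact hy.2.1
  have h4 : Disjoint (univ.filter fun x : Fin n → Bool => g x = true ∧ g (AC.flip x j) = false)
      (univ.filter fun x : Fin n → Bool => g x = false ∧ g (AC.flip x j) = true) := by
    rw [Finset.disjoint_filter]
    intro x _ h h'
    rw [h.1] at h'
    exact absurd h'.1 (by decide)
  rw [h2, Finset.card_union_of_disjoint h4, h3, two_mul]

/-- The sensitivity of a formula with `L` leaves. -/
theorem formula_tot {n L : ℕ} {g : (Fin n → Bool) → Bool} (hg : Formula L g) :
    (tot g : ℝ) ≤ √L * 2 ^ n := by
  classical
  have h1 := khrapchenko hg (univ.filter fun x => g x = true) (univ.filter fun x => g x = false)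
    (fun x hx => (Finset.mem_filter.1 hx).2) fun x hx => (Finset.mem_filter.1 hx).2
  have h2 : ((univ.filter fun x => g x = true).card : ℝ) +
      (univ.filter fun x => g x = false).card = 2 ^ n := by
    have h3 := Finset.card_filter_add_card_filter_not (s := (univ : Finset (Fin n → Bool)))
      (fun x => g x = true)
    have h4 : (univ.filter fun x => ¬ g x = true) = univ.filter fun x => g x = false := by
      ext x
      simp
    rw [h4, Finset.card_univ, Fintype.card_fun, Fintype.card_bool, Fintype.card_fin] at h3
    exact_mod_cast h3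
  set a : ℝ := ((univ.filter fun x => g x = true).card : ℝ)
  set b : ℝ := ((univ.filter fun x => g x = false).card : ℝ)
  have h5 : a * b ≤ (2 ^ n) ^ 2 / 4 := by
    rw [← h2]
    nlinarith [sq_nonneg (a - b)]
  have h6 : (tot g : ℝ) ^ 2 ≤ L * (2 ^ n) ^ 2 := by
    rw [tot_edges]
    push_cast
    have hL : (0 : ℝ) ≤ L := Nat.cast_nonneg L
    calc _ = 4 * ((edges (univ.filter fun x => g x = true)
          (univ.filter fun x => g x = false)).card : ℝ) ^ 2 := by ring
      _ ≤ 4 * (L * a * b) := by linarith
      _ = 4 * (L * (a * b)) := by ring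
      _ ≤ 4 * (L * ((2 ^ n) ^ 2 / 4)) := by
        have := mul_le_mul_of_nonneg_left h5 hL
        linarith
      _ = _ := by ring
  have h7 : (√L * 2 ^ n) ^ 2 = L * (2 ^ n) ^ 2 := by
    rw [mul_pow, Real.sq_sqrt (Nat.cast_nonneg L)]
  exact abs_le_of_sq_le_sq' (h6.trans (le_of_eq h7.symm)) (by positivity) |>.2

end Pool.Agent.Helper45.SE
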