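import Pool.Agent.Helper45.SE.Khr

/-! The sensitivity of functions of few unate functions. -/

set_option autoImplicit false

namespace Pool.Agent.Helper45.SE

open Finset
open Pool.Agent.Helper72

/-- `g` is increasing or decreasing in each variable -/
def Unate {n : ℕ} (g : (Fin n → Bool) → Bool) : Prop :=
  ∀ j : Fin n, ∃ b : Bool, ∀ x : Fin n → Bool, x j = b → g x = true → g (AC.flip x j) = true

/-- the sign of a bit -/
def sg (b : Bool) : ℝ := if b = true then 1 else -1

lemma sg_not (b : Bool) : sg (!b) = - sg b := by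
  cases b <;> simp [sg]

lemma sg_sq (b : Bool) : sg b * sg b = 1 := by
  cases b <;> simp [sg]

lemma flip_self {n : ℕ} (x : Fin n → Bool) (j : Fin n) : AC.flip x j j = !(x j) := by
  rw [AC.flip, Function.update_self]

lemma flip_ne {n : ℕ} (x : Fin n → Bool) {i j : Fin n} (h : i ≠ j) : AC.flip x j i = x i := by
  rw [AC.flip, Function.update_of_ne h]

lemma sum_flip {n : ℕ} (F : (Fin n → Bool) → ℝ) (j : Fin n) :
    ∑ x, F (AC.flip x j) = ∑ x, F x :=
  Fintype.sum_equiv (Function.Involutive.toPerm (fun x => AC.flip x j)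
    fun x => AC.flip_flip x j) _ _ fun _ => rfl

lemma sens_unate {n : ℕ} {g : (Fin n → Bool) → Bool} {j : Fin n} {b : Bool}
    (h : ∀ x : Fin n → Bool, x j = b → g x = true → g (AC.flip x j) = true) :
    ((univ.filter fun x : Fin n → Bool => g x ≠ g (AC.flip x j)).card : ℝ) =
      ∑ x, sg (g x) * (sg (!b) * sg (x j)) := by
  classical
  have h1 : ∑ x, sg (g x) * (sg (!b) * sg (x j)) =
      - ∑ x, sg (g (AC.flip x j)) * (sg (!b) * sg (x j)) := by
    rw [← sum_flip (fun x => sg (g x) * (sg (!b) * sg (x j))) j, ← Finset.sum_neg_distrib]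
    refine Finset.sum_congr rfl fun x _ => ?_
    rw [flip_self, sg_not (x j)]
    ring
  have h2 : 2 * ∑ x, sg (g x) * (sg (!b) * sg (x j)) =
      ∑ x, (sg (g x) - sg (g (AC.flip x j))) * (sg (!b) * sg (x j)) := by
    rw [two_mul]
    nth_rw 2 [h1]
    rw [← sub_eq_add_neg, ← Finset.sum_sub_distrib]
    refine Finset.sum_congr rfl fun x _ => ?_
    ring
  have h3 : ∀ x : Fin n → Bool, (sg (g x) - sg (g (AC.flip x j))) * (sg (!b) * sg (x j)) =
      2 * if g x ≠ g (AC.flip x j) then 1 else 0 := by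
    intro x
    by_cases hb : x j = b
    · have h4 := h x hb
      rw [hb]
      cases hg : g x <;> cases hg' : g (AC.flip x j)
      · simp
      · cases b <;> norm_num [sg]
      · rw [hg, hg'] at h4
        simp at h4
      · simp
    · have hb' : x j = !b := by
        cases b <;> cases hx : x j <;> simp_all
      have h4 := h (AC.flip x j) (by rw [flip_self, hb', Bool.not_not])
      rw [AC.flip_flip] at h4
      rw [hb']
      cases hg : g x <;> cases hg' : g (AC.flip x j)
      · simp
      · rw [hg, hg'] at h4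
        simp at h4
      · cases b <;> norm_num [sg]
      · simp
  rw [Finset.sum_congr rfl fun x _ => h3 x, ← Finset.mul_sum] at h2
  have h4 := mul_left_cancel₀ two_ne_zero h2
  rw [h4, Finset.card_filter]
  push_cast
  rfl

lemma orth {n : ℕ} (i j : Fin n) :
    ∑ x : Fin n → Bool, sg (x i) * sg (x j) = if i = j then 2 ^ n else 0 := by
  classical
  split_ifs with h
  · subst h
    rw [Finset.sum_congr rfl fun x _ => sg_sq (x i), Finset.sum_const, Finset.card_univ,
      Fintype.card_fun, Fintype.card_bool, Fintype.card_fin]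
    simp
  · have h1 := sum_flip (fun x : Fin n → Bool => sg (x i) * sg (x j)) i
    have h2 : ∑ x : Fin n → Bool, sg (AC.flip x i i) * sg (AC.flip x i j) =
        - ∑ x : Fin n → Bool, sg (x i) * sg (x j) := by
      rw [← Finset.sum_neg_distrib]
      refine Finset.sum_congr rfl fun x _ => ?_
      rw [flip_self, flip_ne x (Ne.symm h), sg_not]
      ring
    rw [h2] at h1
    linarith

/-- The sensitivity of a unate function. -/
theorem unate_tot {n : ℕ} {g : (Fin n → Bool) → Bool} (hg : Unate g) :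
    (tot g : ℝ) ≤ √n * 2 ^ n := by
  classical
  choose b hb using hg
  have h1 : (tot g : ℝ) = ∑ x, sg (g x) * ∑ j, sg (!(b j)) * sg (x j) := by
    rw [tot]
    push_cast
    rw [Finset.sum_congr rfl fun j _ => sens_unate (hb j), Finset.sum_comm]
    refine Finset.sum_congr rfl fun x _ => ?_
    rw [Finset.mul_sum]
  have h2 : ∑ x : Fin n → Bool, (sg (g x)) ^ 2 = 2 ^ n := by
    rw [Finset.sum_congr rfl fun x _ => (sq (sg (g x))).trans (sg_sq (g x)), Finset.sum_const,
      Finset.card_univ, Fintype.card_fun, Fintype.card_bool, Fintype.card_fin]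
    simp
  have h3 : ∑ x : Fin n → Bool, (∑ j, sg (!(b j)) * sg (x j)) ^ 2 = n * 2 ^ n := by
    have h4 : ∀ x : Fin n → Bool, (∑ j, sg (!(b j)) * sg (x j)) ^ 2 =
        ∑ i, ∑ j, (sg (!(b i)) * sg (!(b j))) * (sg (x i) * sg (x j)) := by
      intro x
      rw [sq, Finset.sum_mul_sum]
      refine Finset.sum_congr rfl fun i _ => Finset.sum_congr rfl fun j _ => ?_
      ring
    rw [Finset.sum_congr rfl fun x _ => h4 x, Finset.sum_comm]
    have h5 : ∀ i : Fin n, ∑ x : Fin n → Bool, ∑ j,
        (sg (!(b i)) * sg (!(b j))) * (sg (x i) * sg (x j)) = 2 ^ n := by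
      intro i
      rw [Finset.sum_comm]
      have h6 : ∀ j : Fin n, ∑ x : Fin n → Bool,
          (sg (!(b i)) * sg (!(b j))) * (sg (x i) * sg (x j)) =
          if i = j then (sg (!(b i)) * sg (!(b j))) * 2 ^ n else 0 := by
        intro j
        rw [← Finset.mul_sum, orth]
        split_ifs <;> simp
      rw [Finset.sum_congr rfl fun j _ => h6 j, Finset.sum_ite_eq]
      simp [sg_sq]
    rw [Finset.sum_congr rfl fun i _ => h5 i, Finset.sum_const, Finset.card_univ,
      Fintype.card_fin, nsmul_eq_mul]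
  have h7 := Finset.sum_mul_sq_le_sq_mul_sq univ (fun x : Fin n → Bool => sg (g x))
    (fun x => ∑ j, sg (!(b j)) * sg (x j))
  rw [h2, h3, ← h1] at h7
  have h8 : (√n * 2 ^ n) ^ 2 = (2 : ℝ) ^ n * (n * 2 ^ n) := by
    rw [mul_pow, Real.sq_sqrt (Nat.cast_nonneg n)]
    ring
  exact abs_le_of_sq_le_sq' (h7.trans (le_of_eq h8.symm)) (by positivity) |>.2

/-- `g` is a function of `k` unate functions -/
def OfUnate {n : ℕ} (k : ℕ) (g : (Fin n → Bool) → Bool) : Prop :=
  ∃ h : Fin k → (Fin n → Bool) → Bool, (∀ l, Unate (h l)) ∧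
    ∀ x y, (∀ l, h l x = h l y) → g x = g y

theorem ofUnate_tot {n k : ℕ} {g : (Fin n → Bool) → Bool} (hg : OfUnate k g) :
    (tot g : ℝ) ≤ k * √n * 2 ^ n := by
  classical
  obtain ⟨h, hh, hgh⟩ := hg
  have h1 : tot g ≤ ∑ l : Fin k, tot (h l) := by
    unfold tot
    rw [Finset.sum_comm]
    refine Finset.sum_le_sum fun j _ => ?_
    refine (Finset.card_le_card (t := univ.biUnion fun l : Fin k =>
      univ.filter fun x : Fin n → Bool => h l x ≠ h l (AC.flip x j)) fun x hx => ?_).trans
        Finset.card_biUnion_le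
    rw [Finset.mem_filter] at hx
    rw [Finset.mem_biUnion]
    by_contra hne
    push Not at hne
    refine hx.2 (hgh x (AC.flip x j) fun l => ?_)
    by_contra hl
    exact hne l (Finset.mem_univ _) (Finset.mem_filter.2 ⟨Finset.mem_univ _, hl⟩)
  calc (tot g : ℝ) ≤ ∑ l : Fin k, (tot (h l) : ℝ) := by exact_mod_cast h1
    _ ≤ ∑ l : Fin k, √n * 2 ^ n := Finset.sum_le_sum fun l _ => unate_tot (hh l)
    _ = _ := by
      rw [Finset.sum_const, Finset.card_univ, Fintype.card_fin, nsmul_eq_mul]
      ring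

end Pool.Agent.Helper45.SE
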